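import Pool.Agent.helper12.TZ.Spec

set_option autoImplicit false

namespace Pool.Agent.TZ

open Pool.Agent.helper58.DC Pool.Agent.DI Pool.Agent.GR Pool.Agent.OB

/-- **HDV** -/
theorem HDV (hHDA : HDA_stmt) (hHDB : HDB_stmt) (hQKU : QKU_stmt) : HDV_stmt := by
  intro p m c a M hS G _ _ g D hD hg ht ζ hζ f u
  have hp : Fact p.Prime := ⟨hS.pr⟩
  obtain ⟨v, hv, hsum⟩ := hHDA p m c a M hS G g D hD hg ht ζ hζ f u
  refine ⟨v, hv, ?_⟩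
  rw [← hsum]
  let P : G → G → Subgroup G → Prop := fun t y U => ∃ κ : D, ((κ : G) ∈ U ∧
    (κ : G) * y * (κ : G)⁻¹ = y * (t ^ m) ^ p ^ a ∧
    ∀ i, 0 < i → i < p ^ a → ∀ κ' ∈ U, κ' * y * κ'⁻¹ ≠ y * (t ^ m) ^ i) ∧
    f κ = Multiplicative.ofAdd u
  have hB := hHDB G p m g D hD hg ht ζ P
  have hset : {x : Tr G | x ∈ XX p g D ∧ ∃ κ : D, QK p m a D x κ ∧ f κ = Multiplicative.ofAdd u} =
      {x : Tr G | x ∈ XX p g D ∧ UX m D x ⊓ Subgroup.zpowers (x.1 ^ m) = ⊥ ∧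
        ∃ κ : D, QK p m a D x κ ∧ f κ = Multiplicative.ofAdd u} ∪
      {x : Tr G | x ∈ XX p g D ∧ UX m D x ⊓ Subgroup.zpowers (x.1 ^ m) ≠ ⊥ ∧
        P x.1 x.2.1 (UX m D x)} := by
    ext x
    simp only [Set.mem_ofPred_eq, Set.mem_union]
    constructor
    · rintro ⟨hx, κ, h1, h2⟩
      by_cases h : UX m D x ⊓ Subgroup.zpowers (x.1 ^ m) = ⊥
      · exact Or.inl ⟨hx, h, κ, h1, h2⟩
      · exact Or.inr ⟨hx, h, κ, (hQKU G p m a g D hD x hx κ).mp h1, h2⟩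
    · rintro (⟨hx, _, κ, h1, h2⟩ | ⟨hx, _, κ, h1, h2⟩)
      · exact ⟨hx, κ, h1, h2⟩
      · exact ⟨hx, κ, (hQKU G p m a g D hD x hx κ).mpr h1, h2⟩
  rw [hset, finsum_mem_union ?_ (Set.toFinite _) (Set.toFinite _), hB, add_zero]
  rw [Set.disjoint_left]
  rintro x ⟨_, h1, _⟩ ⟨_, h2, _⟩
  exact h2 h1

end Pool.Agent.TZ
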